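import Pool.Agent.R207.QC3

set_option autoImplicit false

/-! # Solutions of `(-Δ)^m u = V exp(2mu)` that are unbounded from above -/

namespace Pool.Agent.Results.MP_885c89_an.Unbounded

open MeasureTheory Real Set Filter Topology InnerProductSpace Laplacian
open scoped ContDiff

/-- `u` is a solution of `(-Δ)^m u = V exp (2 m u)` on `ℝ^(2m)`: it is locally integrable and the
equation holds in the sense of distributions. -/
def IsSolution (m : ℕ) (V u : EuclideanSpace ℝ (Fin (2 * m)) → ℝ) : Prop :=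
  LocallyIntegrable u ∧
    ∀ φ : EuclideanSpace ℝ (Fin (2 * m)) → ℝ, ContDiff ℝ ∞ φ → HasCompactSupport φ →
      ∫ x, u x * (fun (f : EuclideanSpace ℝ (Fin (2 * m)) → ℝ) y => -Δ f y)^[m] φ x =
        ∫ x, V x * Real.exp (2 * m * u x) * φ x

open Pool.Agent.R207.QC

theorem aux (m : ℕ) (hm : 3 ≤ m) : ∃ V u : EuclideanSpace ℝ (Fin (2 * m)) → ℝ,
    Continuous V ∧ HasCompactSupport V ∧ MemLp V ⊤ ∧ ContDiff ℝ ∞ u ∧
    Integrable (fun x => Real.exp (2 * m * u x)) ∧ IsSolution m V u ∧
    ¬ ∃ M : ℝ, ∀ᵐ x, u x ≤ M := by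
  have hn : 6 ≤ 2 * m := by omega
  have h2m : ((2 * m : ℕ) : ℝ) = 2 * m := by push_cast; ring
  let j : Fin (2 * m) := ⟨0, by omega⟩
  have hus := uu_smooth j
  have huc : Continuous (uu j) := hus.continuous
  have hNL : NL^[m] (uu j) = fun x => NL^[m] (pp j) x + (1 / ((2 * m : ℕ) : ℝ)) * NL^[m] ll x := by
    unfold uu
    rw [NL_iter_add (pp_smooth j) (contDiff_const.mul ll_smooth), NL_iter_const_mul ll_smooth]
  have hout : ∀ x : E (2 * m), 1 < ‖x‖ → NL^[m] (uu j) x = 0 := by
    intro x hx
    rw [hNL, NL_iter_pp j hm]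
    simp only
    rw [NL_ll_out (by omega) rfl hx]
    ring
  let V : E (2 * m) → ℝ := fun x => NL^[m] (uu j) x * Real.exp (-(2 * m * uu j x))
  have hVc : Continuous V := by
    apply Continuous.mul (NL_iter_smooth hus m).continuous
    exact Real.continuous_exp.comp (continuous_const.mul huc).neg
  have hVs : HasCompactSupport V := by
    apply HasCompactSupport.intro (isCompact_closedBall (0 : E (2 * m)) 1)
    intro x hx
    have hx' : 1 < ‖x‖ := by
      rw [mem_closedBall_zero_iff] at hx
      exact not_le.mp hx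
    change NL^[m] (uu j) x * _ = 0
    rw [hout x hx', zero_mul]
  refine ⟨V, uu j, hVc, hVs, hVc.memLp_top_of_hasCompactSupport hVs _, hus, ?_, ?_, ?_⟩
  · have := exp_uu_integrable hn j
    rw [h2m] at this
    exact this
  · refine ⟨huc.locallyIntegrable, ?_⟩
    intro φ hφ hφc
    have h1 := green_iter hus hφ hφc m
    change ∫ x, uu j x * NL^[m] φ x = _
    rw [h1]
    congr 1
    ext x
    have e : V x * Real.exp (2 * m * uu j x) = NL^[m] (uu j) x := by
      change NL^[m] (uu j) x * Real.exp (-(2 * m * uu j x)) * _ = _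
      rw [mul_assoc, ← Real.exp_add]
      simp
    rw [e]
  · rintro ⟨M, hM⟩
    have hopen : IsOpen {x : E (2 * m) | M < uu j x} := isOpen_lt continuous_const huc
    have hne : {x : E (2 * m) | M < uu j x}.Nonempty := by
      let t : ℝ := Real.exp ((2 * m) * (|M| + 1))
      have ht : 1 ≤ t := by
        apply Real.one_le_exp
        positivity
      have ht0 : 0 < t := by linarith
      refine ⟨EuclideanSpace.single j t, ?_⟩
      have hnorm : ‖(EuclideanSpace.single j t : E (2 * m))‖ = t := by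
        rw [PiLp.norm_single, Real.norm_of_nonneg ht0.le]
      have h1 : pp j (EuclideanSpace.single j t : E (2 * m)) = 0 := by
        unfold pp co qq
        rw [hnorm]
        simp
        ring
      change M < pp j _ + (1 / ((2 * m : ℕ) : ℝ)) * ll _
      rw [h1, ll_out (by rw [hnorm]; exact ht), hnorm, h2m]
      have hlog : Real.log t = (2 * m) * (|M| + 1) := Real.log_exp _
      rw [hlog]
      have hm0 : (0 : ℝ) < 2 * m := by
        have : (3 : ℝ) ≤ m := by exact_mod_cast hm
        linarith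
      field_simp
      have := le_abs_self M
      linarith
    have hpos := hopen.measure_pos volume hne
    have h0 : volume {x : E (2 * m) | M < uu j x} = 0 := by
      have := ae_iff.mp hM
      simpa using this
    exact hpos.ne' h0

/-- The answer to Q1 is no: the statement fails, and it fails for every `m ≥ 3`, even with `V`
continuous and compactly supported and `u` smooth. -/
theorem result :
    (¬ ∀ m : ℕ, 2 ≤ m → ∀ V u : EuclideanSpace ℝ (Fin (2 * m)) → ℝ, MemLp V ⊤ →
      Integrable (fun x => Real.exp (2 * m * u x)) → IsSolution m V u →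
        ∃ M : ℝ, ∀ᵐ x, u x ≤ M) ∧
    ∀ m : ℕ, 3 ≤ m → ∃ V u : EuclideanSpace ℝ (Fin (2 * m)) → ℝ,
      Continuous V ∧ HasCompactSupport V ∧ MemLp V ⊤ ∧ ContDiff ℝ ∞ u ∧
      Integrable (fun x => Real.exp (2 * m * u x)) ∧ IsSolution m V u ∧
      ¬ ∃ M : ℝ, ∀ᵐ x, u x ≤ M := by
  refine ⟨?_, aux⟩
  intro h
  obtain ⟨V, u, -, -, h1, -, h2, h3, h4⟩ := aux 3 le_rfl
  exact h4 (h 3 (by norm_num) V u h1 h2 h3)

end Pool.Agent.Results.MP_885c89_an.Unbounded
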